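import Pool.Agent.KS6_21.RF.All

set_option autoImplicit false

open scoped InnerProductSpace

namespace Pool.Agent.Results.MP_ace6cd_an.AllHilbertSpaces

universe u

variable {K : Type u} [NormedAddCommGroup K] [InnerProductSpace ℂ K]

/-- Every closed invariant subspace of `A` is the closed linear span of the eigenvectors of `A`
which it contains. -/
def Spanned (A : K →L[ℂ] K) : Prop :=
  ∀ M : Submodule ℂ K, IsClosed (M : Set K) → (∀ x ∈ M, A x ∈ M) →
    M = (Submodule.span ℂ {x : K | x ∈ M ∧ ∃ c : ℂ, A x = c • x}).topologicalClosure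

/-- `B` leaves every closed invariant subspace of `A` invariant. -/
def InAlgLat (A B : K →L[ℂ] K) : Prop :=
  ∀ M : Submodule ℂ K, IsClosed (M : Set K) → (∀ x ∈ M, A x ∈ M) → ∀ x ∈ M, B x ∈ M

/-- `B` is in the closure of the polynomials in `A` in the weak operator topology. -/
def InW (A B : K →L[ℂ] K) : Prop :=
  ∀ (s : Finset (K × K)) (ε : ℝ), 0 < ε →
    ∃ p : Polynomial ℂ, ∀ z ∈ s, ‖⟪(B - Polynomial.aeval A p) z.1, z.2⟫_ℂ‖ < ε

/-- `A` is reflexive: every operator in `Alg Lat A` is in the weakly closed algebra generated by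
`A` and the identity. -/
def Reflexive (A : K →L[ℂ] K) : Prop := ∀ B : K →L[ℂ] K, InAlgLat A B → InW A B

/-- (1) On every infinite-dimensional complex Hilbert space (of any dimension) there is a compact
operator `A`, all closed invariant subspaces of which are spanned by eigenvectors, which is not
reflexive.
(2) On a finite-dimensional complex Hilbert space every operator in `Alg Lat A` is a polynomial in
`A`, if all invariant subspaces of `A` are spanned by eigenvectors.
(3) So the complex Hilbert spaces for which Q1 has a positive answer are the finite-dimensional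
ones, also if only compact operators are considered. -/
theorem result :
    (∀ (K : Type u) [NormedAddCommGroup K] [InnerProductSpace ℂ K] [CompleteSpace K],
      ¬ FiniteDimensional ℂ K →
      ∃ A : K →L[ℂ] K, IsCompactOperator A ∧ Spanned A ∧ ¬ Reflexive A) ∧
    (∀ (K : Type u) [NormedAddCommGroup K] [InnerProductSpace ℂ K] [FiniteDimensional ℂ K]
      (A B : K →L[ℂ] K), Spanned A → InAlgLat A B → ∃ p : Polynomial ℂ, B = Polynomial.aeval A p) ∧
    (∀ (K : Type u) [NormedAddCommGroup K] [InnerProductSpace ℂ K] [CompleteSpace K],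
      ((∀ A : K →L[ℂ] K, Spanned A → Reflexive A) ↔ FiniteDimensional ℂ K) ∧
      ((∀ A : K →L[ℂ] K, IsCompactOperator A → Spanned A → Reflexive A) ↔
        FiniteDimensional ℂ K)) := by
  have h1 : ∀ (K : Type u) [NormedAddCommGroup K] [InnerProductSpace ℂ K] [CompleteSpace K],
      ¬ FiniteDimensional ℂ K →
      ∃ A : K →L[ℂ] K, IsCompactOperator A ∧ Spanned A ∧ ¬ Reflexive A := by
    intro K _ _ _ hK
    obtain ⟨J⟩ := KS6_21.RF.exists_isometry hK
    refine ⟨KS6_21.RF.T J, KS6_21.RF.compact_T J,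
      fun M hM hi => KS6_21.RF.synthesis J hM hi, fun h => ?_⟩
    obtain ⟨s, hs⟩ := KS6_21.RF.far J
    obtain ⟨p, hp⟩ := h (KS6_21.RF.Q J) (fun M hM hi x hx => KS6_21.RF.Q_mem J hM hi hx) s
      (1 / 4) (by norm_num)
    obtain ⟨z, hz, hz2⟩ := hs p
    exact absurd (hp z hz) (not_lt.2 hz2)
  have h2 : ∀ (K : Type u) [NormedAddCommGroup K] [InnerProductSpace ℂ K] [FiniteDimensional ℂ K]
      (A B : K →L[ℂ] K), Spanned A → InAlgLat A B →
      ∃ p : Polynomial ℂ, B = Polynomial.aeval A p := by
    intro K _ _ _ A B hA hB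
    exact KS6_21.RF.finite_dim A B hA hB
  have h3 : ∀ (K : Type u) [NormedAddCommGroup K] [InnerProductSpace ℂ K],
      FiniteDimensional ℂ K → ∀ A : K →L[ℂ] K, Spanned A → Reflexive A := by
    intro K _ _ hK A hA B hB s ε hε
    obtain ⟨p, rfl⟩ := h2 K A B hA hB
    refine ⟨p, fun z _ => ?_⟩
    rw [sub_self]
    simpa using hε
  refine ⟨h1, h2, fun K _ _ _ => ⟨⟨fun h => ?_, fun h => h3 K h⟩,
    ⟨fun h => ?_, fun h A _ hA => h3 K h A hA⟩⟩⟩
  · by_contra hK
    obtain ⟨A, -, hA, hA'⟩ := h1 K hK
    exact hA' (h A hA)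
  · by_contra hK
    obtain ⟨A, hc, hA, hA'⟩ := h1 K hK
    exact hA' (h A hc hA)

end Pool.Agent.Results.MP_ace6cd_an.AllHilbertSpaces
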